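import Pool.Agent.U944.TH.Main

/-!
# The maximum number of induced directed 2-edge paths: `τ(n) ≤ 0.0666692 n³`

For every digon-free digraph on `n` vertices (every `n`) the number `τ` of induced directed
2-edge paths satisfies `6 τ ≤ 0.400015 n³`; the conjecture is `6 τ ≤ 0.4 n³ + O(n²)`, attained by the
iterated substitution of directed 4-cycles.  More generally, for every probability distribution `w` on
the vertices, three independent random vertices induce a directed 2-edge path with probability at most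
`0.400015`.

Proof. Let `w` be the distribution for which this probability is maximal, `l` the maximum. Then every
vertex in the support of `w` is in such a path with probability exactly `l`, and in every subset `A` of
the vertices the probability is at most `l w(A)³`. These conditions, for the sets of the vertices with
given adjacencies to two vertices, are combined with sums of squares (flag algebras) on five vertices.
-/

set_option autoImplicit false

open Finset

namespace Pool.Agent.Results.MP_4b544d_co.NearTwoFifths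
open Pool.Agent.U944.TH

/-- `r` (arcs `i → j` for `r i j = true`) has no loops and no pairs of opposite arcs -/
def Oriented {n : ℕ} (r : Fin n → Fin n → Bool) : Prop :=
  (∀ i, r i i = false) ∧ ∀ i j, ¬ (r i j = true ∧ r j i = true)

/-- the triples `(a, b, c)` with `a → b → c` and `a`, `c` different and non-adjacent -/
def paths {n : ℕ} (r : Fin n → Fin n → Bool) : Finset (Fin n × Fin n × Fin n) :=
  univ.filter fun t => r t.1 t.2.1 = true ∧ r t.2.1 t.2.2 = true ∧
    r t.1 t.2.2 = false ∧ r t.2.2 t.1 = false ∧ t.1 ≠ t.2.2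

/-- the relation function -/
def rf {n : ℕ} (r : Fin n → Fin n → Bool) (i j : Fin n) : ℕ :=
  if r i j = true then 1 else if r j i = true then 2 else 0

theorem rf_RV {n : ℕ} {r : Fin n → Fin n → Bool} (h : Oriented r) : RV (rf r) where
  lt a b := by unfold rf; split_ifs <;> norm_num
  sw a b := by
    unfold rf
    have := h.2 a b
    by_cases h1 : r a b = true <;> by_cases h2 : r b a = true
    · exact absurd ⟨h1, h2⟩ this
    · simp [h1, h2]; rfl
    · simp [h1, h2]; rfl
    · simp [h1, h2]; rfl
  dg a := by unfold rf; rw [h.1 a]; rfl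

/-- one ordered path -/
def q3 (ab bc ac : ℕ) : ℕ := if ab = 1 ∧ bc = 1 ∧ ac = 0 then 1 else 0

theorem ph_q3 : ∀ a < 3, ∀ b < 3, ∀ c < 3, ph a b c = q3 a c b + q3 b (sw c) a + q3 (sw a) b c +
    q3 c (sw b) (sw a) + q3 (sw b) a (sw c) + q3 (sw c) (sw a) (sw b) := by decide

def Q {n : ℕ} (r : Fin n → Fin n → Bool) (x y z : Fin n) : ℝ :=
  (q3 (rf r x y) (rf r y z) (rf r x z) : ℕ)

theorem phv_Q {n : ℕ} {r : Fin n → Fin n → Bool} (h : Oriented r) (x y z : Fin n) :
    phv (rf r) x y z = Q r x y z + Q r x z y + Q r y x z + Q r y z x + Q r z x y + Q r z y x := by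
  have hr := rf_RV h
  unfold phv Q
  rw [ph_q3 _ (hr.lt x y) _ (hr.lt x z) _ (hr.lt y z), hr.sw y z, hr.sw x y, hr.sw x z]
  push_cast
  ring

theorem sum_phv {n : ℕ} {r : Fin n → Fin n → Bool} (h : Oriented r) (w : Fin n → ℝ) :
    PP (rf r) w = 6 * ∑ x, ∑ y, ∑ z, w x * w y * w z * Q r x y z := by
  have e0 : PP (rf r) w = ∑ x, ∑ y, ∑ z, w x * w y * w z * phv (rf r) x y z := by
    unfold PP d2 d1
    refine sum_congr rfl fun x _ => ?_
    rw [mul_sum]
    refine sum_congr rfl fun y _ => ?_
    rw [mul_sum, mul_sum]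
    exact sum_congr rfl fun z _ => by ring
  have s23 : ∀ f : Fin n → Fin n → Fin n → ℝ, ∑ x, ∑ y, ∑ z, f x y z = ∑ x, ∑ y, ∑ z, f x z y :=
    fun f => sum_congr rfl fun x _ => sum_comm
  have s12 : ∀ f : Fin n → Fin n → Fin n → ℝ, ∑ x, ∑ y, ∑ z, f x y z = ∑ x, ∑ y, ∑ z, f y x z :=
    fun f => sum_comm
  have e1 : ∀ x y z, w x * w y * w z * phv (rf r) x y z =
      w x * w y * w z * Q r x y z + w x * w z * w y * Q r x z y + w y * w x * w z * Q r y x z +
      w y * w z * w x * Q r y z x + w z * w x * w y * Q r z x y + w z * w y * w x * Q r z y x := by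
    intro x y z
    rw [phv_Q h]
    ring
  rw [e0]
  simp only [e1, sum_add_distrib]
  have t1 := s23 fun x y z => w x * w y * w z * Q r x y z
  have t2 := s12 fun x y z => w x * w y * w z * Q r x y z
  have t3 : ∑ x, ∑ y, ∑ z, w y * w z * w x * Q r y z x =
      ∑ x, ∑ y, ∑ z, w x * w y * w z * Q r x y z := by
    rw [s12 fun x y z => w y * w z * w x * Q r y z x]
    exact s23 fun x y z => w x * w z * w y * Q r x z y
  have t4 : ∑ x, ∑ y, ∑ z, w z * w x * w y * Q r z x y =
      ∑ x, ∑ y, ∑ z, w x * w y * w z * Q r x y z := by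
    rw [s23 fun x y z => w z * w x * w y * Q r z x y]
    exact s12 fun x y z => w y * w x * w z * Q r y x z
  have t5 : ∑ x, ∑ y, ∑ z, w z * w y * w x * Q r z y x =
      ∑ x, ∑ y, ∑ z, w x * w y * w z * Q r x y z := by
    rw [s12 fun x y z => w z * w y * w x * Q r z y x]
    rw [s23 fun x y z => w z * w x * w y * Q r z x y]
    exact s12 fun x y z => w y * w x * w z * Q r y x z
  rw [← t1, ← t2, t3, t4, t5]
  ring

theorem Q_eq {n : ℕ} {r : Fin n → Fin n → Bool} (h : Oriented r) (x y z : Fin n) :
    Q r x y z = if (r x y = true ∧ r y z = true ∧ r x z = false ∧ r z x = false ∧ x ≠ z) then 1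
      else 0 := by
  unfold Q q3 rf
  have h1 := h.2 x y
  have h2 := h.2 y z
  have h3 := h.2 x z
  by_cases hxz : x = z
  · subst hxz
    cases hxy : r x y <;> cases hyx : r y x <;> simp_all
  · cases hxy : r x y <;> cases hyz : r y z <;> cases hxz' : r x z <;> cases hzx : r z x <;>
      cases hyx : r y x <;> cases hzy : r z y <;> simp_all

/-- **Theorem.** -/
theorem result (n : ℕ) (r : Fin n → Fin n → Bool) (hr : Oriented r) :
    6 * ((paths r).card : ℝ) ≤ 0.400015 * (n : ℝ) ^ 3 ∧
    ∀ w : Fin n → ℝ, (∀ i, 0 ≤ w i) → ∑ i, w i = 1 →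
      6 * ∑ t ∈ paths r, w t.1 * w t.2.1 * w t.2.2 ≤ 0.400015 := by
  have key : ∀ w : Fin n → ℝ, PP (rf r) w = 6 * ∑ t ∈ paths r, w t.1 * w t.2.1 * w t.2.2 := by
    intro w
    rw [sum_phv hr]
    congr 1
    unfold paths
    rw [sum_filter, Fintype.sum_prod_type]
    refine sum_congr rfl fun x _ => ?_
    rw [Fintype.sum_prod_type]
    refine sum_congr rfl fun y _ => sum_congr rfl fun z _ => ?_
    rw [Q_eq hr, mul_ite, mul_one, mul_zero]
  have main : ∀ w : Fin n → ℝ, (∀ i, 0 ≤ w i) → ∑ i, w i = 1 →
      6 * ∑ t ∈ paths r, w t.1 * w t.2.1 * w t.2.2 ≤ 0.400015 := by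
    intro w hw h1
    have hne : Nonempty (Fin n) := by
      by_contra h
      rw [not_nonempty_iff] at h
      rw [univ_eq_empty, sum_empty] at h1
      norm_num at h1
    rw [← key w]
    exact lagr (rf_RV hr) w hw h1
  refine ⟨?_, main⟩
  rcases Nat.eq_zero_or_pos n with h0 | h0
  · subst h0
    have : (paths r).card = 0 := by
      rw [card_eq_zero, eq_empty_iff_forall_notMem]
      intro t
      exact t.1.elim0
    rw [this]
    norm_num
  · have hn : (0 : ℝ) < n := by exact_mod_cast h0
    have h := main (fun _ => (n : ℝ)⁻¹) (fun _ => by positivity) (by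
      rw [sum_const, card_univ, Fintype.card_fin, nsmul_eq_mul, mul_inv_cancel₀ hn.ne'])
    rw [sum_const, nsmul_eq_mul] at h
    have h2 : 6 * ((paths r).card : ℝ) = 6 * (((paths r).card : ℝ) * ((n : ℝ)⁻¹ * (n : ℝ)⁻¹ *
        (n : ℝ)⁻¹)) * (n : ℝ) ^ 3 := by
      field_simp
    rw [h2]
    exact mul_le_mul_of_nonneg_right h (by positivity)

end Pool.Agent.Results.MP_4b544d_co.NearTwoFifths
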